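import Mathlib
import Pool.Agent.H.MP_328b17_nt.B

open Finset Polynomial

namespace Pool.Agent.Results.MP_328b17_nt.No

noncomputable def q : RatFunc ℚ := RatFunc.X

noncomputable def qint (m : ℤ) : RatFunc ℚ := (1 - q ^ m) / (1 - q)

noncomputable def poch (a b : RatFunc ℚ) (k : ℕ) : RatFunc ℚ := ∏ j ∈ range k, (1 - a * b ^ j)

noncomputable def S (p : ℕ) : RatFunc ℚ :=
  ∑ j ∈ range p, qint (2 * ((p : ℤ) - 1) * j - 1) *
    (poch q⁻¹ (q ^ (p - 1)) j / poch (q ^ (p - 1)) (q ^ (p - 1)) j) ^ (2 * (p - 1)) *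
    q ^ (j * (p - 1) ^ 2)

def Cg (p : ℕ) (γ : ℚ) : Prop :=
  let D := S p - RatFunc.C γ * (1 - q) ^ 2 * algebraMap ℚ[X] (RatFunc ℚ) (cyclotomic p ℚ) ^ 4
  cyclotomic p ℚ ^ 5 ∣ D.num ∧ IsCoprime D.denom (cyclotomic p ℚ ^ 5)

open Pool.Agent.H.MP_4d1f21_nt Pool.Agent.H.MP_328b17_nt

theorem key (p : ℕ) (hp : p.Prime) (γ : ℚ) :
    Cg p γ ↔ γ = (p - 1) * (p - 2) ^ 2 * (2 * p - 3) * (p ^ 2 - 1) / 72 := by
  obtain ⟨m, rfl⟩ : ∃ m, p = m + 1 + 1 := ⟨p - 2, by have := hp.two_le; omega⟩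
  have := nontriv (n := m + 1 + 1) (e := 5) (by omega) (by omega)
  have : Fact (m + 1 + 1).Prime := ⟨hp⟩
  have hri := root_inv (n := m + 1 + 1) 5 (by omega)
  have h5 := eps_pow (m + 1 + 1) 5
  have hun := fun j => unit_root (n := m + 1 + 1) (j := j) 5 (by omega)
  set P := cyclotomic (m + 1 + 1) ℚ ^ 5 with hP
  set x := AdjoinRoot.root P with hx
  set φ := algebraMap ℚ (AdjoinRoot P)
  obtain ⟨xi, hxi⟩ := hri
  have hp' : ∀ i, x ^ i * xi ^ i = 1 := fun i => by rw [← mul_pow, hxi, one_pow]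
  obtain ⟨f, hf⟩ := ex_f (x ^ (m + 1)) (m + 1) fun j hj => by
    rw [← pow_mul]
    refine hun _ fun h => ?_
    rcases (hp.dvd_mul).1 h with h | h <;> exact absurd (Nat.le_of_dvd (by omega) h) (by omega)
  obtain ⟨w, hw⟩ := (hun 1 fun h => absurd (Nat.le_of_dvd one_pos h) (by omega)).exists_right_inv
  rw [pow_one] at hw
  have rq : Rel P q x := Rel.X
  have hN : (x ^ (m + 1)) ^ (m + 1 + 1) = (x ^ (m + 1 + 1)) ^ (m + 1) := by ring
  have hM := main (hp' (m + 1)) (hp' (m + 1 + 1)) hN hf h5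
  have rT := rel_T (M := m + 1) (w := x ^ ((m + 1) ^ 2)) (hp' (m + 1)) (hp' (m + 1 + 1)) hf
    (by linear_combination xi ^ (m + 1) * hp' ((m + 1) ^ 2)) (rq.pow (m + 1))
    (by
      convert rq.inv hxi using 1
      linear_combination xi * hp' (m + 1)) (rq.pow ((m + 1) ^ 2))
  set T0 := T (x ^ (m + 1)) (xi ^ (m + 1)) (x ^ (m + 1 + 1)) (xi ^ (m + 1 + 1)) f (m + 1) (m + 1 + 1)
  have rS : Rel P (S (m + 1 + 1)) (T0 * w) := by
    convert rT.mul ((Rel.one.sub rq).inv hw) using 1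
    rw [S, sum_mul]
    refine sum_congr rfl fun j _ => ?_
    have hq : q ≠ 0 := RatFunc.X_ne_zero
    have : (2 * (((m + 1 + 1 : ℕ) : ℤ) - 1) * j - 1) = (((m + 1) * (2 * j) : ℕ) : ℤ) + (-1) := by
      push_cast; ring
    rw [qint, this, zpow_add₀ hq, zpow_natCast, zpow_neg_one, pow_mul, poch, poch, Nat.add_sub_cancel,
      mul_comm j, pow_mul q ((m + 1) ^ 2)]
    ring
  set φ0 := AdjoinRoot.mk P (cyclotomic (m + 1 + 1) ℚ) with hφ0
  have hΦ : φ0 * (x - 1) = x ^ (m + 1 + 1) - 1 := by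
    have := congrArg (AdjoinRoot.mk P) (cyclotomic_prime_mul_X_sub_one ℚ (m + 1 + 1))
    simpa using this
  have rD : ∀ γ : ℚ, Rel P (S (m + 1 + 1) - RatFunc.C γ * (1 - q) ^ 2 *
      algebraMap ℚ[X] (RatFunc ℚ) (cyclotomic (m + 1 + 1) ℚ) ^ 4)
      (T0 * w - φ γ * (1 - x) ^ 2 * φ0 ^ 4) := fun γ =>
    rS.sub (((Rel.rat γ).mul ((Rel.one.sub rq).pow 2)).mul ((Rel.poly _).pow 4))
  set γ0 : ℚ := (((m + 1 + 1 : ℕ) : ℚ) - 1) * (((m + 1 + 1 : ℕ) : ℚ) - 2) ^ 2 *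
    (2 * ((m + 1 + 1 : ℕ) : ℚ) - 3) * (((m + 1 + 1 : ℕ) : ℚ) ^ 2 - 1) / 72 with hγ0
  have h0 : T0 * w - φ γ0 * (1 - x) ^ 2 * φ0 ^ 4 = 0 := by
    have k1 : 72 * φ γ0 = (m + 1) * m ^ 2 * (2 * m + 1) * (((m + 1 : ℕ) : AdjoinRoot P)
        * ((m + 1 : ℕ) + 2)) := by
      have : γ0 * 72 = (((m + 1) * m ^ 2 * (2 * m + 1) * ((m + 1) * (m + 1 + 2)) : ℕ) : ℚ) := by
        rw [hγ0]; push_cast; ring
      have h2 := congrArg φ this
      rw [map_mul, map_natCast, map_ofNat] at h2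
      push_cast at h2 ⊢
      linear_combination h2
    have k2 : (x ^ (m + 1 + 1)) ^ (m + 1) * xi ^ (m + 1) = (x ^ (m + 1 + 1)) ^ m * x := by
      linear_combination (x ^ (m + 1 + 1)) ^ m * x * hp' (m + 1)
    have k3 : (x ^ (m + 1 + 1)) ^ m * x = (x ^ (m + 1)) ^ (m + 1) := by ring
    obtain ⟨ρ, hρ⟩ := sub_one_dvd_pow_sub_one (x ^ (m + 1 + 1)) m
    have u1 : IsUnit (1 - (x ^ (m + 1 + 1)) ^ m * x) := by
      rw [k3]; exact IsUnit.of_mul_eq_one _ (hf m (by omega))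
    have u2 := ratu (A := AdjoinRoot P) 72 (by norm_num)
    rw [Nat.cast_ofNat] at u2
    have u3 : IsUnit (1 - x) := IsUnit.of_mul_eq_one _ hw
    rw [k2] at hM
    refine ((u2.mul (u1.mul (u3.pow 2))).mul_right_eq_zero).1 ?_
    generalize (x ^ (m + 1 + 1)) ^ m = Y at hM hρ
    generalize x ^ (m + 1 + 1) - 1 = e at hM hρ hΦ h5
    set K := (m + 1) * (m : AdjoinRoot P) ^ 2 * (2 * m + 1) * (((m + 1 : ℕ) : AdjoinRoot P)
        * ((m + 1 : ℕ) + 2))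
    linear_combination (72 * (1 - Y * x) * (1 - x) * T0) * hw - (1 - x) * hM
      - (1 - Y * x) * (1 - x) ^ 4 * φ0 ^ 4 * k1
      - K * (1 - Y * x) * ((φ0 * (x - 1)) ^ 3 + (φ0 * (x - 1)) ^ 2 * e + φ0 * (x - 1) * e ^ 2 + e ^ 3) * hΦ
      + K * x * e ^ 4 * hρ + K * x * ρ * h5
  constructor
  · rintro ⟨h1, h2⟩
    have h3 := rel_uniq (rD γ) (rel_of h1 h2)
    by_contra hne
    have u1 : IsUnit (φ (γ0 - γ)) := (IsUnit.mk0 _ (sub_ne_zero.2 (Ne.symm hne))).map φ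
    have u3 : IsUnit (1 - x) := IsUnit.of_mul_eq_one _ hw
    have h4 : φ0 ^ 4 = 0 := by
      refine ((u1.mul (u3.pow 2)).mul_right_eq_zero).1 ?_
      rw [map_sub]; linear_combination h3 - h0
    rw [hφ0, ← map_pow, AdjoinRoot.mk_eq_zero, hP] at h4
    have h6 := natDegree_le_of_dvd h4 (pow_ne_zero _ (cyclotomic_ne_zero _ _))
    rw [natDegree_pow, natDegree_pow, natDegree_cyclotomic, Nat.totient_prime hp] at h6
    omega
  · intro h
    rw [h]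
    exact Rel.fin (h0 ▸ rD γ0)

theorem result :
    (¬ ∀ p : ℕ, p.Prime → 3 < p → Cg p ((p - 1) * (p - 3) * (2 * p - 3) * (p - 2) ^ 2 / 6)) ∧
    (∀ p : ℕ, p.Prime → 7 < p → ¬ Cg p ((p - 1) * (p - 3) * (2 * p - 3) * (p - 2) ^ 2 / 6)) ∧
    ∀ p : ℕ, p.Prime → Cg p ((p - 1) * (p - 2) ^ 2 * (2 * p - 3) * (p ^ 2 - 1) / 72) := by
  have h2 : ∀ p : ℕ, p.Prime → 7 < p →
      ¬ Cg p ((p - 1) * (p - 3) * (2 * p - 3) * (p - 2) ^ 2 / 6) := by
    intro p hp h7 h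
    rw [key p hp] at h
    have h8 : (7 : ℚ) < p := by exact_mod_cast h7
    have : (0 : ℚ) < (p - 1) * (p - 2) ^ 2 * (2 * p - 3) * ((p - 5) * (p - 7)) := by
      have : (0 : ℚ) < p - 1 := by linarith
      have : (0 : ℚ) < p - 2 := by linarith
      have : (0 : ℚ) < 2 * p - 3 := by linarith
      have : (0 : ℚ) < p - 5 := by linarith
      have : (0 : ℚ) < p - 7 := by linarith
      positivity
    linarith
  exact ⟨fun h => h2 11 (by norm_num) (by norm_num) (h 11 (by norm_num) (by norm_num)), h2,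
    fun p hp => (key p hp _).2 rfl⟩

end Pool.Agent.Results.MP_328b17_nt.No
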